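import Pool.Agent.Helper190.NJ.Main
import Pool.Agent.Helper190.NJ2.Main
import Pool.Agent.Helper190.NJ3.Gen

set_option autoImplicit false

open MvPolynomial Matrix

namespace Pool.Agent.Results.MP_835236_al.ClassificationUpToThree

/-- The Jacobian matrix `J`: row `i` is the gradient of `σ i`. The polynomial called
`σ_k` in the problem file, `k = 1, ..., n`, is here `σ (k - 1)`: indices start at `0`. -/
noncomputable def jacobian {n : ℕ} (σ : Fin n → MvPolynomial (Fin n) ℝ) :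
    Matrix (Fin n) (Fin n) (MvPolynomial (Fin n) ℝ) :=
  Matrix.of fun i j => pderiv j (σ i)

/-- The matrix `C`: its first column is `-σ i`, its entries next to the diagonal on the right,
at the places `(i, i + 1)`, are `1`, and all others are `0`. -/
noncomputable def companion {n : ℕ} (σ : Fin n → MvPolynomial (Fin n) ℝ) :
    Matrix (Fin n) (Fin n) (MvPolynomial (Fin n) ℝ) :=
  Matrix.of fun i j =>
    if (j : ℕ) = 0 then - σ i else if (j : ℕ) = (i : ℕ) + 1 then 1 else 0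

/-- The polynomials `Q i j` with `L = J⁻¹ C J = Q / D`, that is `Q = adj(J) C J`; see
`entry_eq` below. -/
noncomputable def Q {n : ℕ} (σ : Fin n → MvPolynomial (Fin n) ℝ) :
    Matrix (Fin n) (Fin n) (MvPolynomial (Fin n) ℝ) :=
  (jacobian σ).adjugate * companion σ * jacobian σ

/-- Admissible collections of the file: algebraically independent, `σ_k` homogeneous of
degree `k`, and `D = det J` divides every `Q i j`. -/
def Admissible {n : ℕ} (σ : Fin n → MvPolynomial (Fin n) ℝ) : Prop :=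
  AlgebraicIndependent ℝ σ ∧ (∀ k : Fin n, (σ k).IsHomogeneous ((k : ℕ) + 1)) ∧
    ∀ i j, (jacobian σ).det ∣ Q σ i j

/-- Sanity check: over the field of rational functions the entries of `L = J⁻¹ C J` are
`Q i j / D`. -/
theorem entry_eq {n : ℕ} (σ : Fin n → MvPolynomial (Fin n) ℝ) (h : (jacobian σ).det ≠ 0)
    (i j : Fin n) :
    (((jacobian σ).map (algebraMap _ (FractionRing (MvPolynomial (Fin n) ℝ))))⁻¹ *
      (companion σ).map (algebraMap _ (FractionRing (MvPolynomial (Fin n) ℝ))) *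
      (jacobian σ).map (algebraMap _ (FractionRing (MvPolynomial (Fin n) ℝ)))) i j =
    algebraMap _ (FractionRing (MvPolynomial (Fin n) ℝ)) (Q σ i j) /
      algebraMap _ (FractionRing (MvPolynomial (Fin n) ℝ)) (jacobian σ).det := by
  set f : MvPolynomial (Fin n) ℝ →+* FractionRing (MvPolynomial (Fin n) ℝ) :=
    algebraMap _ (FractionRing (MvPolynomial (Fin n) ℝ)) with hf
  have hD : ((jacobian σ).map f).det = f (jacobian σ).det := (RingHom.map_det f _).symm
  have hA : ((jacobian σ).map f).adjugate = ((jacobian σ).adjugate).map f :=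
    (RingHom.map_adjugate f _).symm
  have hQ : (Q σ).map f = ((jacobian σ).adjugate).map f * (companion σ).map f *
      (jacobian σ).map f := by
    unfold Q
    rw [Matrix.map_mul, Matrix.map_mul]
  have h0 : f (jacobian σ).det ≠ 0 := by
    intro h1
    apply h
    exact (IsFractionRing.injective (MvPolynomial (Fin n) ℝ)
      (FractionRing (MvPolynomial (Fin n) ℝ))) (h1.trans (map_zero f).symm)
  rw [Matrix.inv_def, Ring.inverse_eq_inv', hD, hA, Matrix.smul_mul, Matrix.smul_mul, ← hQ,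
    Matrix.smul_apply, Matrix.map_apply, smul_eq_mul, div_eq_inv_mul]

/-- The linear form with coefficients `a`. -/
noncomputable def linForm {n : ℕ} (a : Fin n → ℝ) : MvPolynomial (Fin n) ℝ :=
  ∑ j, C (a j) * X j

/-- The list for `n = 2` in terms of two linear forms `a, b`: the collections `(σ_1, σ_2)` with
`t^2 + σ_1 t + σ_2` equal to
`(t+a)(t+b)`, `(t+a)^2+b^2`, `t^2+at+b^2`, `t^2+at-b^2`. -/
def List2 (a b : MvPolynomial (Fin 2) ℝ) (σ : Fin 2 → MvPolynomial (Fin 2) ℝ) : Prop :=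
  σ = ![a + b, a * b] ∨ σ = ![2 * a, a ^ 2 + b ^ 2] ∨ σ = ![a, b ^ 2] ∨ σ = ![a, -(b ^ 2)]

/-- The list for `n = 3` in terms of three linear forms `a, b, c`: the collections
`(σ_1, σ_2, σ_3)` with `t^3 + σ_1 t^2 + σ_2 t + σ_3` equal to one of
`(t+a)(t+b)(t+c)`, `(t+a)((t+b)^2+c^2)`, `(t+a)(t^2+bt+c^2)`, `(t+a)(t^2+bt-c^2)`,
`(t+a)((t+a)(t+b)+c^2)`, `(t+a)((t+a)(t+b)-c^2)`, `t^3+at^2+bct+b^3`, `(t+a)(t^2+bt+ac)`. -/
def List3 (a b c : MvPolynomial (Fin 3) ℝ) (σ : Fin 3 → MvPolynomial (Fin 3) ℝ) : Prop :=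
  σ = ![a + b + c, a * b + b * c + c * a, a * b * c] ∨
  σ = ![a + 2 * b, 2 * a * b + b ^ 2 + c ^ 2, a * (b ^ 2 + c ^ 2)] ∨
  σ = ![a + b, a * b + c ^ 2, a * c ^ 2] ∨
  σ = ![a + b, a * b - c ^ 2, -(a * c ^ 2)] ∨
  σ = ![2 * a + b, a ^ 2 + 2 * a * b + c ^ 2, a * (a * b + c ^ 2)] ∨
  σ = ![2 * a + b, a ^ 2 + 2 * a * b - c ^ 2, a * (a * b - c ^ 2)] ∨
  σ = ![a, b * c, b ^ 3] ∨
  σ = ![a + b, a * b + a * c, a ^ 2 * c]

/-- A collection for every `n = m + 1`, in the variables `x_1, ..., x_n` (`x_k` is `X (k - 1)`) and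
with `b = x_n`: `σ_k = b^(k-1) x_k`, that is
`t^n + x_1 t^(n-1) + b x_2 t^(n-2) + ... + b^(n-2) x_(n-1) t + b^n`. -/
noncomputable def familyF (m : ℕ) : Fin (m + 1) → MvPolynomial (Fin (m + 1)) ℝ :=
  fun i => X i * X (Fin.last m) ^ (i : ℕ)

/-- A collection for every `n = m + 1`, in the variables `x_0, ..., x_m`:
`σ_k = x_0^(k-1) (x_(k-1) + x_k)` for `k = 1, ..., n`, where `x_n` is read as `0`, that is
`(t + x_0) (t^m + x_1 t^(m-1) + x_0 x_2 t^(m-2) + ... + x_0^(m-1) x_m)`. -/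
noncomputable def familyR (m : ℕ) : Fin (m + 1) → MvPolynomial (Fin (m + 1)) ℝ :=
  fun i => X 0 ^ (i : ℕ) * (X i + if h : (i : ℕ) + 1 < m + 1 then X ⟨(i : ℕ) + 1, h⟩ else 0)

/-- All admissible collections for `n = 1, 2, 3`, and two admissible collections for every `n`.
The rows of the invertible matrix `A` are the coefficient vectors of the linearly independent
linear forms `a, b` (and `c`). -/
theorem result :
    (∀ σ : Fin 1 → MvPolynomial (Fin 1) ℝ,
      Admissible σ ↔ ∃ a : Fin 1 → ℝ, a ≠ 0 ∧ σ = ![linForm a]) ∧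
    (∀ σ : Fin 2 → MvPolynomial (Fin 2) ℝ,
      Admissible σ ↔ ∃ A : Matrix (Fin 2) (Fin 2) ℝ, A.det ≠ 0 ∧
        List2 (linForm (A 0)) (linForm (A 1)) σ) ∧
    (∀ σ : Fin 3 → MvPolynomial (Fin 3) ℝ,
      Admissible σ ↔ ∃ A : Matrix (Fin 3) (Fin 3) ℝ, A.det ≠ 0 ∧
        List3 (linForm (A 0)) (linForm (A 1)) (linForm (A 2)) σ) ∧
    (∀ m : ℕ, Admissible (familyF m)) ∧
    (∀ m : ℕ, Admissible (familyR m)) := by
  refine ⟨?_, ?_, ?_, fun m => Pool.Agent.Helper190.NJ3.admF m,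
    fun m => Pool.Agent.Helper190.NJ3.admR m⟩
  · intro σ
    have h := Pool.Agent.Helper190.NJ2.class1 σ
    constructor
    · intro ha
      obtain ⟨r, hr, h1⟩ := h.1 ha
      refine ⟨fun _ => r, fun h0 => hr (congrFun h0 0), ?_⟩
      rw [h1]
      simp [linForm]
    · rintro ⟨a, ha, h1⟩
      refine h.2 ⟨a 0, ?_, ?_⟩
      · intro h0
        apply ha
        funext i
        rw [Subsingleton.elim i 0]
        exact h0
      · rw [h1]
        simp [linForm]
  · intro σ
    exact Pool.Agent.Helper190.NJ2.class2 σ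
  · intro σ
    exact Pool.Agent.Helper190.NJ.class3 σ

end Pool.Agent.Results.MP_835236_al.ClassificationUpToThree
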